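import Pool.Agent.Lib.MP_4c2a44_an.Main

/-!
Rokhlin entropy of inverse limits: the inequality of the question for towers exhausted by negligible partitions.

The setting is that of the frozen statement (same spelling of the actions, of the factor maps and of Rokhlin
entropy), for every group `G`; freeness and ergodicity are not needed. Instead we assume that, over some `Y N`, the
space `X` is exhausted by negligible partitions: whenever `Z` is a proper `G`-invariant sub-sigma-algebra of `X`
containing `Y N` and the null sets, there are

* a subgroup `K` such that `Y N` has a factor in which almost all points have stabiliser `K`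
  (for `K = 1`: `Y N` has a free factor, for instance `Y N` itself when it is free), and
* a finite partition `f` that is not `Z`-measurable and that is `K`-negligible over some sub-sigma-algebra `m` of
  `Z` that contains `Y N`: for every `η > 0` there are arbitrarily large finite sets `F` of group elements, at most
  one in each coset of `K`, and finite partitions `γ` with `H(γ | m) ≤ η |F|` such that the translates `f (t x)`,
  `t ∈ F`, are measurable with respect to `m` and the translates of `γ` by elements of `K`.

For `K = 1` this says that the relative naive entropy of `f` over `m` vanishes. The conclusion is that the Rokhlin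
entropy of `X` is at most that of `Y n` for every `n ≥ N`, so at most the upper limit.

The proof: the sets `s` that belong, for every `ε > 0`, to the algebra generated by `Y N` and by the translates of
some countable partition of entropy at most `ε` form an invariant sigma-algebra (the relative outer Pinsker
algebra). A negligible partition over a subalgebra of it belongs to it: a random subset `B` of the factor of
density `C / |F|` covers all but a fraction `3 (exp (-C) + δ)` of the points by its translates by `F`; over the
points of `B` one codes the rank of the value of `γ` in the order of decreasing conditional probabilities given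
`m`, and over the uncovered points the value of `f`. So the algebra is everything, and one small partition together
with a generating partition of `Y n` generates `X`.
-/

set_option autoImplicit false

open MeasureTheory

namespace Pool.Agent.Results.MP_4c2a44_an.NegligibleTowers

open Pool.Agent.Lib.MP_4c2a44_an (rok Exhausted tower_result)

/-- If `X` is exhausted over `Y N` by negligible partitions, then the Rokhlin entropy of `X` is at most the Rokhlin
entropy of `Y n` for every `n ≥ N`, and at most the upper limit of these entropies. -/
theorem result :
    ∀ (G : Type) [Group G]
      (X : Type) [MeasurableSpace X] [StandardBorelSpace X] [MulAction G X]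
      (μ : Measure X) [IsProbabilityMeasure μ]
      (Y : ℕ → Type) [∀ n, MeasurableSpace (Y n)] [∀ n, StandardBorelSpace (Y n)]
      [∀ n, MulAction G (Y n)]
      (ν : ∀ n, Measure (Y n)) [∀ n, IsProbabilityMeasure (ν n)]
      (p : ∀ n, X → Y n) (q : ∀ n, Y (n + 1) → Y n),
      (∀ g : G, MeasurePreserving (fun x : X => g • x) μ μ) →
      (∀ (n : ℕ) (g : G), MeasurePreserving (fun y : Y n => g • y) (ν n) (ν n)) →
      (∀ n, MeasurePreserving (p n) μ (ν n)) →
      (∀ n, MeasurePreserving (q n) (ν (n + 1)) (ν n)) →
      (∀ (n : ℕ) (g : G) (x : X), p n (g • x) = g • p n x) →
      (∀ (n : ℕ) (x : X), p n x = q n (p (n + 1) x)) →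
      ∀ N : ℕ, Exhausted G (ν N) μ (p N) →
        (∀ n, N ≤ n → rok G μ ≤ rok G (ν n)) ∧
          rok G μ ≤ Filter.limsup (fun n : ℕ => rok G (ν n)) Filter.atTop := by
  intro G _ X _ _ _ μ _ Y _ _ _ ν _ p q hμ hν hp hq hpe hpq N hex
  exact tower_result hμ hν hp hq hpe hpq N hex

end Pool.Agent.Results.MP_4c2a44_an.NegligibleTowers
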